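import Pool.Agent.Q167.Words.Complexity

/-!
# MP_c3017e_co, Q1: the number of subword complexity sequences

`a_k(n)` is subexponential, uniformly in `k`: `a_k(n) ≤ (n + 1) ^ (√n (12 log₂ n + 1))`. Hence
`a_k(n) / (log₂ k · 2 ^ (n / 2))` tends to `0` for every `k ≥ 2`, and the conjecture is false.
-/

set_option autoImplicit false

namespace Pool.Agent.Results.MP_c3017e_co.Subexponential

open Filter Q167.Words

theorem result :
    (∀ k n : ℕ, numSeq k n ≤ (n + 1) ^ (Nat.sqrt n * (12 * Nat.log 2 n + 1))) ∧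
    ∀ k : ℕ, 2 ≤ k →
      Tendsto (fun n : ℕ => (numSeq k n : ℝ) / (Real.logb 2 k * (2 : ℝ) ^ ((n : ℝ) / 2)))
        atTop (nhds 0) ∧
      ¬ Tendsto (fun n : ℕ => (numSeq k n : ℝ) / (Real.logb 2 k * (2 : ℝ) ^ ((n : ℝ) / 2)))
        atTop (nhds 1) := by
  refine ⟨numSeq_le, fun k hk => ?_⟩
  have h2 : (2 : ℝ) ≤ k := by exact_mod_cast hk
  have hC : 0 < Real.logb 2 k := Real.logb_pos (by norm_num) (by linarith)
  have h := tendsto_ratio k hC
  exact ⟨h, fun h1 => zero_ne_one (tendsto_nhds_unique h h1)⟩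

end Pool.Agent.Results.MP_c3017e_co.Subexponential
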